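import Mathlib
import Pool.Agent.H239Z.HopfMain

/-!
A counterexample, in every dimension `n = d + 1 ≥ 2`, to the Hopf lemma variant for the Laplacian
with degenerate normal derivative.  With `y₁` the first coordinate of `y`,

  u = t (200000 y₁^6 - 4000 y₁^4 t^2 + 1000 y₁^2 t^4 + 20 t^6),
  v = t (199800 y₁^6 - 3995 y₁^4 t^2 +  996 y₁^2 t^4 + 18 t^6).

Points of `ℝ^n` are pairs `(t, y)` in the Euclidean product `WithLp 2 (ℝ × ℝ^d)`, and
`Laplacian.laplacian` is the Laplacian of Mathlib in all `n` variables.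
-/

set_option autoImplicit false

open scoped ContDiff

namespace Pool.Agent.Results.MP_a60953_an.Counterexample

/-- For every `d ≥ 1` there are smooth functions `u`, `v` on `ℝ × ℝ^d` which satisfy conditions
1 to 4 of the problem on `Ω = {|y| < 1, 0 < t < 1}` and `u_t (0, 0) = 0`, with `u ≠ v` at every
point of `Ω`. -/
theorem result (d : ℕ) (hd : 1 ≤ d) :
    ∃ u v : WithLp 2 (ℝ × EuclideanSpace ℝ (Fin d)) → ℝ,
      ContDiff ℝ ∞ u ∧ ContDiff ℝ ∞ v ∧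
      (∀ (t : ℝ) (y : EuclideanSpace ℝ (Fin d)), ‖y‖ < 1 → 0 < t → t < 1 →
        v (WithLp.toLp 2 (t, y)) ≤ u (WithLp.toLp 2 (t, y))) ∧
      (∀ (t : ℝ) (y : EuclideanSpace ℝ (Fin d)), ‖y‖ < 1 → 0 < t → t < 1 →
        0 < u (WithLp.toLp 2 (t, y)) ∧ 0 < v (WithLp.toLp 2 (t, y)) ∧
        0 < deriv (fun τ : ℝ => u (WithLp.toLp 2 (τ, y))) t) ∧
      (∀ y : EuclideanSpace ℝ (Fin d), ‖y‖ < 1 → u (WithLp.toLp 2 (0, y)) = 0) ∧
      (∀ (t s : ℝ) (y : EuclideanSpace ℝ (Fin d)), ‖y‖ < 1 → 0 < t → t ≤ s → s < 1 →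
        u (WithLp.toLp 2 (t, y)) = v (WithLp.toLp 2 (s, y)) →
        Laplacian.laplacian u (WithLp.toLp 2 (t, y)) ≤
          Laplacian.laplacian v (WithLp.toLp 2 (s, y))) ∧
      deriv (fun τ : ℝ => u (WithLp.toLp 2 (τ, 0))) 0 = 0 ∧
      (∀ (t : ℝ) (y : EuclideanSpace ℝ (Fin d)), ‖y‖ < 1 → 0 < t → t < 1 →
        u (WithLp.toLp 2 (t, y)) ≠ v (WithLp.toLp 2 (t, y))) := by
  obtain ⟨u, v, h1, h2, h3, h4, h5, h6, -, -, h7⟩ := Pool.Agent.H239Z.Hopf.main d hd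
  exact ⟨u, v, h1, h2, fun t y a b c => (h7 t y a b c).le, h3, h4, h5, h6,
    fun t y a b c => (h7 t y a b c).ne'⟩

end Pool.Agent.Results.MP_a60953_an.Counterexample
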